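import Pool.Agent.LibFT6.Fin

/-!
`R^4_2(l) = l + 2 * floor((l - 2) / 4)` for every `l ≥ 2`.
`Arrow t s l n` (file `Pool/Agent/LibFT6/Low.lean`): every map from the unordered pairs of `Fin n` to
`Fin t` admits a set `S` of at most `s` colours and a list of `l` distinct vertices whose
consecutive pairs have their colour in `S`.
-/

namespace Pool.Agent.Results.MP_7aea73_co.FourTwoExact

open Pool.Agent.LibFT6

/-- The least `n` such that every 4-colouring of the edges of the complete graph on `n` vertices
contains a path on `l` vertices whose edges use at most 2 colours is `l + 2 * ((l - 2) / 4)`. -/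
theorem result (l : ℕ) (hl : 2 ≤ l) :
    IsLeast {n : ℕ | Arrow 4 2 l n} (l + 2 * ((l - 2) / 4)) :=
  final l hl

end Pool.Agent.Results.MP_7aea73_co.FourTwoExact
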