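import Pool.Agent.LibPFU75.Final

/-!
`R^t_s(ℓ) = (1 + o(1)) max(1, t/(2s)) ℓ` as `s → ∞`, uniformly over all `t > s`.

`Forces t s ℓ n` (file `Pool/Agent/LibPF61/Problem.lean`) says that every `t`-colouring of the edges
of the complete graph on `n` vertices has a path with `ℓ` vertices whose edges use at most `s`
colours, so `R` below is `R^t_s(ℓ)`.
-/

namespace Pool.Agent.Results.MP_7aea73_co.UniformColours

open PF61

theorem result (ε : ℝ) (hε : 0 < ε) :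
    ∃ N : ℕ, ∀ K : ℝ, ∃ L : ℕ, ∀ s t : ℕ, N ≤ s → s < t → (t : ℝ) ≤ K * s → ∀ ℓ : ℕ, L ≤ ℓ →
      ∃ R : ℕ, IsLeast {n : ℕ | Forces t s ℓ n} R ∧
        (R : ℝ) ≤ (1 + ε) * max 1 ((t : ℝ) / (2 * s)) * ℓ ∧
        (N * s ≤ ℓ → (1 - ε) * max 1 ((t : ℝ) / (2 * s)) * ℓ ≤ (R : ℝ)) :=
  PFU.final ε hε

end Pool.Agent.Results.MP_7aea73_co.UniformColours
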